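import Pool.Agent.W751.CV.Stm

/-!
PIW: product measures with densities (subtask CV-PIW).
-/

set_option autoImplicit false

namespace Pool.Agent.W32.CV

open MeasureTheory Pool.Agent.W751.CV

theorem lintegral_fin_prod (n : ℕ) (ν : Measure ℂ) [IsFiniteMeasure ν] (h : Fin n → ℂ → ENNReal)
    (hm : ∀ i, Measurable (h i)) :
    ∫⁻ z : Fin n → ℂ, ∏ i, h i (z i) ∂(Measure.pi fun _ => ν) = ∏ i, ∫⁻ x, h i x ∂ν := by
  induction n with
  | zero =>
    simp only [Finset.univ_eq_empty, Finset.prod_empty, lintegral_const, one_mul]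
    rw [Measure.pi_univ]
    simp
  | succ n ih =>
    have h1 := MeasurePreserving.lintegral_map_equiv
      (fun z : Fin (n + 1) → ℂ => ∏ i, h i (z i)) _
      ((measurePreserving_piFinSuccAbove (fun _ : Fin (n + 1) => ν) 0).symm)
    rw [h1]
    have h2 : ∀ a : ℂ × (Fin n → ℂ),
        ∏ i, h i (((MeasurableEquiv.piFinSuccAbove (fun _ : Fin (n + 1) => ℂ) 0).symm a) i) =
        h 0 a.1 * ∏ i : Fin n, h i.succ (a.2 i) := by
      intro a
      rw [Fin.prod_univ_succ]
      rfl
    have h3 : ∫⁻ a : ℂ × (Fin n → ℂ),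
        ∏ i, h i (((MeasurableEquiv.piFinSuccAbove (fun _ : Fin (n + 1) => ℂ) 0).symm a) i)
          ∂(ν.prod (Measure.pi fun _ => ν)) =
        ∫⁻ a : ℂ × (Fin n → ℂ), h 0 a.1 * ∏ i : Fin n, h i.succ (a.2 i)
          ∂(ν.prod (Measure.pi fun _ => ν)) := lintegral_congr h2
    refine Eq.trans h3 ?_
    have h4 : Measurable fun z : Fin n → ℂ => ∏ i : Fin n, h i.succ (z i) :=
      Finset.measurable_prod _ fun i _ => (hm i.succ).comp (measurable_pi_apply i)
    have h5 := lintegral_prod_mul (μ := ν) (ν := Measure.pi fun _ : Fin n => ν)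
      (hm 0).aemeasurable h4.aemeasurable
    refine Eq.trans h5 ?_
    rw [ih (fun i => h i.succ) (fun i => hm i.succ), Fin.prod_univ_succ]

theorem piw : S_PIW := by
  intro N ν _ g hg hfin F hF
  have hprod : Measurable fun z : Fin N → ℂ => ∏ i, g (z i) :=
    Finset.measurable_prod _ fun i _ => hg.comp (measurable_pi_apply i)
  have key : (Measure.pi fun _ : Fin N => ν.withDensity g) =
      (Measure.pi fun _ : Fin N => ν).withDensity (fun z => ∏ i, g (z i)) := by
    apply Measure.pi_eq
    intro s hs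
    rw [withDensity_apply _ (MeasurableSet.univ_pi hs),
      ← lintegral_indicator (MeasurableSet.univ_pi hs)]
    have h1 : ∀ z : Fin N → ℂ, (Set.univ.pi s).indicator (fun z => ∏ i, g (z i)) z =
        ∏ i, (s i).indicator g (z i) := by
      intro z
      by_cases hz : z ∈ Set.univ.pi s
      · rw [Set.indicator_of_mem hz]
        apply Finset.prod_congr rfl
        intro i _
        rw [Set.indicator_of_mem (hz i (Set.mem_univ i))]
      · rw [Set.indicator_of_notMem hz]
        rw [Set.mem_univ_pi] at hz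
        push Not at hz
        obtain ⟨i, hi⟩ := hz
        exact (Finset.prod_eq_zero (Finset.mem_univ i) (Set.indicator_of_notMem hi g)).symm
    rw [lintegral_congr h1, lintegral_fin_prod N ν _ (fun i => hg.indicator (hs i))]
    apply Finset.prod_congr rfl
    intro i _
    rw [lintegral_indicator (hs i), withDensity_apply _ (hs i)]
  rw [key, lintegral_withDensity_eq_lintegral_mul _ hprod hF]
  rfl

end Pool.Agent.W32.CV
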